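import Pool.Agent.Y743.AF.Stm

/-!
# AF-TRIV: slopes away from one
-/

set_option autoImplicit false

open MeasureTheory Filter Pool.Agent.Y743.AF

namespace Pool.Agent.Y287.AF

theorem triv_aux {N : ℕ} {B G : ℕ → Prop} [DecidablePred B] [DecidablePred G]
    (hBG : ∀ n, ¬ B n → G n) {t : ℝ} (h : (((Finset.Icc 1 N).filter G).card : ℝ) ≤ (1 - t) * N) :
    t * N ≤ (((Finset.Icc 1 N).filter B).card : ℝ) := by
  have h1 := Finset.card_filter_add_card_filter_not (s := Finset.Icc 1 N) (p := B)
  rw [Nat.card_Icc, Nat.add_sub_cancel] at h1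
  have h2 : ((Finset.Icc 1 N).filter fun n => ¬ B n).card ≤ ((Finset.Icc 1 N).filter G).card :=
    Finset.card_le_card (Finset.monotone_filter_right _ fun n _ hn => hBG n hn)
  have h3 : (((Finset.Icc 1 N).filter B).card : ℝ) +
      (((Finset.Icc 1 N).filter fun n => ¬ B n).card : ℝ) = N := by exact_mod_cast h1
  have h4 : (((Finset.Icc 1 N).filter fun n => ¬ B n).card : ℝ) ≤
      (((Finset.Icc 1 N).filter G).card : ℝ) := by exact_mod_cast h2
  linarith

theorem triv : S_TRIV := by
  intro g hg hgt H δ lam c hδ hδ1 hlam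
  rcases le_or_gt lam (1 - δ) with h | h
  · -- small slope
    have h1 := H (1 - δ) (|lam * g 1| + |c| + 1) (δ / 2) (by linarith) (by linarith) (by linarith)
    filter_upwards [h1, hgt.eventually_ge_atTop 0] with N hN hN0 σ hσ hσi
    refine triv_aux (G := fun n => |g (σ n) - (lam * g n + c)| < 1) (fun n hn => not_le.1 hn) ?_
    have h2 : ((Finset.Icc 1 N).filter fun n => |g (σ n) - (lam * g n + c)| < 1).card ≤
        ((Finset.Icc 1 N).filter fun n =>
          g n ≤ (1 - δ) * g N + (|lam * g 1| + |c| + 1)).card := by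
      refine Finset.card_le_card_of_injOn σ ?_ ?_
      · intro n hn
        have hn' := Finset.mem_filter.1 (Finset.mem_coe.1 hn)
        refine Finset.mem_coe.2 (Finset.mem_filter.2 ⟨hσ n hn'.1, ?_⟩)
        have h3 := (abs_lt.1 hn'.2).2
        have h4 : lam * g n ≤ (1 - δ) * g N + |lam * g 1| := by
          rcases le_or_gt 0 lam with h0 | h0
          · have h5 : g n ≤ g N := hg (Finset.mem_Icc.1 hn'.1).2
            have h6 : lam * g n ≤ lam * g N := mul_le_mul_of_nonneg_left h5 h0
            have h7 : lam * g N ≤ (1 - δ) * g N := mul_le_mul_of_nonneg_right h hN0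
            have := abs_nonneg (lam * g 1)
            linarith
          · have h5 : g 1 ≤ g n := hg (Finset.mem_Icc.1 hn'.1).1
            have h6 : lam * g n ≤ lam * g 1 := mul_le_mul_of_nonpos_left h5 h0.le
            have h7 : 0 ≤ (1 - δ) * g N := mul_nonneg (by linarith) hN0
            have := le_abs_self (lam * g 1)
            linarith
        have h5 := le_abs_self c
        linarith
      · intro a ha b hb hab
        exact hσi (Finset.mem_coe.2 (Finset.mem_filter.1 (Finset.mem_coe.1 ha)).1)
          (Finset.mem_coe.2 (Finset.mem_filter.1 (Finset.mem_coe.1 hb)).1) hab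
    have h3 : (((Finset.Icc 1 N).filter fun n => |g (σ n) - (lam * g n + c)| < 1).card : ℝ) ≤
        (1 - δ + δ / 2) * N := le_trans (by exact_mod_cast h2) hN
    have h4 : (0 : ℝ) ≤ N := Nat.cast_nonneg N
    nlinarith
  · -- large slope
    have hl : 1 + δ ≤ lam := by
      by_contra hc
      have h1 : |lam - 1| < δ := abs_lt.2 ⟨by linarith, by linarith [not_le.1 hc]⟩
      exact absurd hlam (not_le.2 h1)
    have hθ : 1 / (1 + δ) < 1 := by
      rw [div_lt_one (by linarith)]
      linarith
    have h1 := H (1 / (1 + δ)) (|c| + 1) (δ / 4) (by positivity) hθ (by linarith)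
    filter_upwards [h1, hgt.eventually_ge_atTop 0] with N hN hN0 σ hσ hσi
    refine triv_aux (G := fun n => |g (σ n) - (lam * g n + c)| < 1) (fun n hn => not_le.1 hn) ?_
    have h2 : ((Finset.Icc 1 N).filter fun n => |g (σ n) - (lam * g n + c)| < 1).card ≤
        ((Finset.Icc 1 N).filter fun n => g n ≤ 1 / (1 + δ) * g N + (|c| + 1)).card := by
      refine Finset.card_le_card ?_
      intro n hn
      have hn' := Finset.mem_filter.1 hn
      refine Finset.mem_filter.2 ⟨hn'.1, ?_⟩
      have h3 := (abs_lt.1 hn'.2).1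
      have h5 : g (σ n) ≤ g N := hg (Finset.mem_Icc.1 (hσ n hn'.1)).2
      have h6 := neg_abs_le c
      have h7 : lam * g n ≤ g N + (|c| + 1) := by linarith
      have hlpos : 0 < lam := by linarith
      have h8 : g n ≤ (g N + (|c| + 1)) / lam := by
        rw [le_div_iff₀ hlpos]
        linarith
      have h9 : (g N + (|c| + 1)) / lam ≤ (g N + (|c| + 1)) / (1 + δ) :=
        div_le_div_of_nonneg_left (by positivity) (by linarith) hl
      have h10 : (g N + (|c| + 1)) / (1 + δ) = 1 / (1 + δ) * g N + (|c| + 1) / (1 + δ) := by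
        ring
      have h11 : (|c| + 1) / (1 + δ) ≤ |c| + 1 := div_le_self (by positivity) (by linarith)
      linarith
    have h3 : (((Finset.Icc 1 N).filter fun n => |g (σ n) - (lam * g n + c)| < 1).card : ℝ) ≤
        (1 / (1 + δ) + δ / 4) * N := le_trans (by exact_mod_cast h2) hN
    have h4 : (0 : ℝ) ≤ N := Nat.cast_nonneg N
    have h5 : 1 / (1 + δ) ≤ 1 - δ / 2 := by
      rw [div_le_iff₀ (by linarith)]
      nlinarith
    have h6 : (1 / (1 + δ) + δ / 4) * N ≤ (1 - δ / 4) * N :=
      mul_le_mul_of_nonneg_right (by linarith) h4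
    linarith

end Pool.Agent.Y287.AF
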